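import Pool.Agent.Helper50.KR.MG
import Pool.Agent.Helper78.KR.Ext

/-!
# From invertible symmetric matrices to all ranks, and to nonzero conditions
-/

set_option autoImplicit false

open Pool.Agent.Helper29.Zeta Polynomial

namespace Pool.Agent.Helper50.KR

lemma growth_scount (ι : Type) [Fintype ι] (Z N : Set (ι × ι)) (r : ℕ) :
    Growth (fun n => ((scount (FF n) ι Z N r : ℤ) : ℂ)) := by
  refine growth_nat (Fintype.card (ι × ι)) fun n hn => ?_
  have h1 : scount (FF n) ι Z N r ≤ Nat.card (ι × ι → FF n) := by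
    refine Nat.card_le_card_of_injective (fun M (p : ι × ι) => M.1 p.1 p.2) fun M M' h => ?_
    apply Subtype.ext
    funext i j
    exact congrFun h (i, j)
  refine h1.trans (le_of_eq ?_)
  rw [Nat.card_fun, card_FF hn, Nat.card_eq_fintype_card]

lemma scount_eq_zero {k : Type} [Field k] {ι : Type} [Fintype ι] (Z N : Set (ι × ι)) {r : ℕ}
    (h : Fintype.card ι < r) : scount k ι Z N r = 0 := by
  have : IsEmpty {M : Matrix ι ι k // M.IsSymm ∧ (∀ p ∈ Z, M p.1 p.2 = 0) ∧
      (∀ p ∈ N, M p.1 p.2 ≠ 0) ∧ M.rank = r} := by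
    refine ⟨fun M => ?_⟩
    have h1 := M.1.rank_le_card_width
    rw [M.2.2.2.2] at h1
    omega
  unfold scount
  exact Nat.card_of_isEmpty

section
variable (hyp : ∀ (ι : Type) [Fintype ι] (Z : Set (ι × ι)), (∀ p ∈ Z, p.1 ≠ p.2) →
  MG (fun n => (scount (FF n) ι Z ∅ (Fintype.card ι) : ℤ)))

include hyp

theorem mg_rank (c : ℕ) : ∀ (ι : Type) [Fintype ι] (Z : Set (ι × ι)) (r : ℕ), (∀ p ∈ Z, p.1 ≠ p.2) →
    Fintype.card ι ≤ r + c → MG (fun n => (scount (FF n) ι Z ∅ r : ℤ)) := by
  induction c with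
  | zero =>
    intro ι _ Z r hZ hr
    rcases (by omega : Fintype.card ι < r ∨ r = Fintype.card ι) with h | h
    · refine MG.zero.congr fun n _ => ?_
      rw [scount_eq_zero Z ∅ h]
      rfl
    · rw [h]
      exact hyp ι Z hZ
  | succ c ih =>
    intro ι _ Z r hZ hr
    by_cases h : Fintype.card ι ≤ r + c
    · exact ih ι Z r hZ h
    have hr' : r < Fintype.card ι := by omega
    have h1 := ih (Option ι) (Prod.map some some '' Z) (r + 2) (by
      rintro _ ⟨p, hp, rfl⟩ h
      exact hZ p hp (Option.some_injective _ h)) (by rw [Fintype.card_option]; omega)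
    have h2 := ih ι Z (r + 2) hZ (by omega)
    have h3 := ih ι Z (r + 1) hZ (by omega)
    have hP : ((X : ℤ[X]) * (X ^ (Fintype.card ι) - X ^ r)).Monic := by
      refine monic_X.mul ?_
      obtain ⟨m, hm⟩ : ∃ m, Fintype.card ι = m + 1 := ⟨Fintype.card ι - 1, by omega⟩
      rw [hm]
      refine monic_X_pow_sub ?_
      rw [degree_X_pow]
      exact_mod_cast (by omega : r < m + 1)
    refine MG.of_monic (growth_scount ι Z ∅ r) hP ?_
    have h4 := (h1.sub (h2.mul_poly (X ^ (r + 2)))).sub (h3.mul_poly ((X - 1) * X ^ (r + 1)))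
    refine h4.congr fun n hn => ?_
    have h5 := scount_ext (k := FF n) Z r
    rw [fcard_FF hn] at h5
    rw [h5]
    simp only [eval_mul, eval_X, eval_sub, eval_pow, eval_one]
    ring

/-- inclusion-exclusion for conditions of the form `M p ≠ 0` -/
theorem mg_list (ι : Type) [Fintype ι] (r : ℕ) (l : List (ι × ι)) : ∀ (Z : Set (ι × ι)),
    (∀ p ∈ Z, p.1 ≠ p.2) → (∀ p ∈ l, p.1 ≠ p.2) →
    MG (fun n => (scount (FF n) ι Z {p | p ∈ l} r : ℤ)) := by
  induction l with
  | nil =>
    intro Z hZ _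
    have h := mg_rank hyp (Fintype.card ι) ι Z r hZ (by omega)
    refine h.congr fun n _ => ?_
    congr 2
    ext p
    simp
  | cons p l ih =>
    intro Z hZ hl
    have h1 := ih Z hZ fun p hp => hl p (List.mem_cons_of_mem _ hp)
    have h2 := ih (insert p Z) (by
      intro p' hp'
      rcases hp' with h | h
      · rw [h]
        exact hl p List.mem_cons_self
      · exact hZ p' h) fun p hp => hl p (List.mem_cons_of_mem _ hp)
    refine (h1.sub h2).congr fun n _ => ?_
    have hadd : scount (FF n) ι Z {p | p ∈ l} r = scount (FF n) ι Z {p' | p' ∈ p :: l} r +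
        scount (FF n) ι (insert p Z) {p | p ∈ l} r := by
      classical
      unfold scount
      rw [← Nat.card_sum]
      refine Nat.card_congr ?_
      refine
        { toFun := fun M => if h : M.1 p.1 p.2 = 0 then Sum.inr ⟨M.1, M.2.1, ?_, M.2.2.2⟩ else
            Sum.inl ⟨M.1, M.2.1, M.2.2.1, ?_, M.2.2.2.2⟩
          invFun := Sum.elim (fun M => ⟨M.1, M.2.1, M.2.2.1, fun p' hp' => M.2.2.2.1 p' (List.mem_cons_of_mem _ hp'),
            M.2.2.2.2⟩) (fun M => ⟨M.1, M.2.1, fun p' hp' => M.2.2.1 p' (Set.mem_insert_of_mem _ hp'), M.2.2.2⟩)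
          left_inv := fun M => ?_
          right_inv := fun M => ?_ }
      · intro p' hp'
        rcases hp' with h' | h'
        · rw [h']; exact h
        · exact M.2.2.1 p' h'
      · intro p' hp'
        rcases List.mem_cons.1 hp' with h' | h'
        · rw [h']; exact h
        · exact M.2.2.2.1 p' h'
      · by_cases h : M.1 p.1 p.2 = 0
        · simp only [h, dif_pos, Sum.elim_inr]
        · simp only [h, dif_neg, not_false_iff, Sum.elim_inl]
      · rcases M with M | M
        · have h : M.1 p.1 p.2 ≠ 0 := M.2.2.2.1 p List.mem_cons_self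
          simp only [Sum.elim_inl, h, dif_neg, not_false_iff]
        · have h : M.1 p.1 p.2 = 0 := M.2.2.1 p (Set.mem_insert _ _)
          simp only [Sum.elim_inr, h, dif_pos]
    rw [hadd]
    push_cast
    ring

/-- **all patterns** -/
theorem mg_scount (ι : Type) [Fintype ι] (r : ℕ) (Z N : Set (ι × ι)) (hZ : ∀ p ∈ Z, p.1 ≠ p.2)
    (hN : ∀ p ∈ N, p.1 ≠ p.2) : MG (fun n => (scount (FF n) ι Z N r : ℤ)) := by
  classical
  have hmem : ∀ p, p ∈ (Set.toFinite N).toFinset.toList ↔ p ∈ N := fun p => by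
    rw [Finset.mem_toList, Set.Finite.mem_toFinset]
  have h := mg_list hyp ι r (Set.toFinite N).toFinset.toList Z hZ (by
    intro p hp
    exact hN p ((hmem p).1 hp))
  have hN' : {p | p ∈ (Set.toFinite N).toFinset.toList} = N := by
    ext p
    exact hmem p
  rw [hN'] at h
  exact h

end

end Pool.Agent.Helper50.KR
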