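import Mathlib

/-!
# Gadgets: addition and multiplication by incidences of points and lines

The gadget of a constraint consists of five objects (points and lines) `g 0, ..., g 4`.  The
coordinates `t y` of the point `W = t` satisfy the constraint if and only if the five objects exist,
and then each of them is unique up to a scalar.
-/

set_option autoImplicit false

open Matrix

namespace Pool.Agent.Helper50.KR

/-- constraints -/
inductive Con (Y : Type)
  | add (a b c : Y) : Con Y
  | mul (a b c : Y) : Con Y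

section
variable {Y : Type}

/-- the constraint has distinct arguments -/
def Con.Ok (o : Y) : Con Y → Prop
  | .add a b c => a ≠ b ∧ a ≠ c ∧ b ≠ c
  | .mul a b c => a ≠ b ∧ a ≠ c ∧ b ≠ c ∧ o ≠ a ∧ o ≠ b ∧ o ≠ c

/-- the constraint holds, in homogeneous form -/
def Con.Holds {k : Type} [Field k] (o : Y) (t : Y → k) : Con Y → Prop
  | .add a b c => t a + t b = t c
  | .mul a b c => t a * t b = t c * t o

/-- which objects are lines -/
def gline : Con Y → Fin 5 → Bool
  | .add _ _ _ => ![true, true, false, false, true]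
  | .mul _ _ _ => ![true, true, true, false, true]

/-- supports -/
def gsupp (o : Y) : Con Y → Fin 5 → Set Y
  | .add a b c => ![{a, c}, {b, c}, {a, c}, {b, c}, {a, b, c}]
  | .mul a b c => ![{b, o}, {a, o}, {b, c}, {o, a, b, c}, {a, c}]

/-- pivots -/
def gpiv (o : Y) : Con Y → Fin 5 → Y
  | .add a b c => ![a, b, a, b, c]
  | .mul a b c => ![b, a, b, o, c]

/-- incidences inside the gadget -/
def gR : Con Y → Fin 5 → Fin 5 → Prop
  | .add _ _ _ => fun i j => (i = 2 ∧ j = 0) ∨ (i = 3 ∧ j = 1) ∨ (i = 4 ∧ j = 2) ∨ (i = 4 ∧ j = 3)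
  | .mul _ _ _ => fun i j => (i = 3 ∧ j = 0) ∨ (i = 3 ∧ j = 1) ∨ (i = 3 ∧ j = 2) ∨ (i = 4 ∧ j = 3)

/-- incidences with the point `(1, ..., 1)` -/
def gR1 : Con Y → Fin 5 → Prop
  | .add _ _ _ => fun i => i = 0 ∨ i = 1
  | .mul _ _ _ => fun i => i = 1 ∨ i = 2

/-- incidences with the point `W` -/
def gRW : Con Y → Fin 5 → Prop
  | .add _ _ _ => fun i => i = 4
  | .mul _ _ _ => fun i => i = 0 ∨ i = 4

lemma gR_line (c : Con Y) (i j : Fin 5) (h : gR c i j) : gline c i ≠ gline c j := by
  cases c with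
  | add a b c =>
    rcases h with ⟨rfl, rfl⟩ | ⟨rfl, rfl⟩ | ⟨rfl, rfl⟩ | ⟨rfl, rfl⟩ <;> simp [gline]
  | mul a b c =>
    rcases h with ⟨rfl, rfl⟩ | ⟨rfl, rfl⟩ | ⟨rfl, rfl⟩ | ⟨rfl, rfl⟩ <;> simp [gline]

lemma gR1_line (c : Con Y) (i : Fin 5) (h : gR1 c i) : gline c i = true := by
  cases c with
  | add a b c => rcases h with rfl | rfl <;> simp [gline]
  | mul a b c => rcases h with rfl | rfl <;> simp [gline]

lemma gRW_line (c : Con Y) (i : Fin 5) (h : gRW c i) : gline c i = true := by
  cases c with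
  | add a b c =>
    have h : i = 4 := h
    subst h
    simp [gline]
  | mul a b c => rcases h with rfl | rfl <;> simp [gline]

variable {k : Type} [Field k]

open Classical in
/-- the objects, normalised by the value 1 at the pivot -/
noncomputable def gvec (o : Y) (t : Y → k) : Con Y → Fin 5 → Y → k
  | .add a b c => ![
      fun y => if y = a then 1 else if y = c then -1 else 0,
      fun y => if y = b then 1 else if y = c then -1 else 0,
      fun y => if y = a then 1 else if y = c then 1 else 0,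
      fun y => if y = b then 1 else if y = c then 1 else 0,
      fun y => if y = c then 1 else if y = a then -1 else if y = b then -1 else 0]
  | .mul a b c => ![
      fun y => if y = b then 1 else if y = o then - (t b / t o) else 0,
      fun y => if y = a then 1 else if y = o then -1 else 0,
      fun y => if y = b then 1 else if y = c then -1 else 0,
      fun y => if y = o then 1 else if y = a then 1 else if y = b then t b / t o else
        if y = c then t b / t o else 0,
      fun y => if y = c then 1 else if y = a then - (t b / t o) else 0]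

lemma gvec_piv (o : Y) (t : Y → k) (c : Con Y) (i : Fin 5) : gvec o t c i (gpiv o c i) = 1 := by
  cases c <;> fin_cases i <;> simp [gvec, gpiv]

variable [Fintype Y]

lemma dot2 {a c : Y} (hac : a ≠ c) {x : Y → k} (hx : ∀ y, y ∉ ({a, c} : Set Y) → x y = 0)
    (z : Y → k) : x ⬝ᵥ z = x a * z a + x c * z c := by
  classical
  unfold dotProduct
  have h : ∑ y ∈ ({a, c} : Finset Y), x y * z y = x a * z a + x c * z c := Finset.sum_pair hac
  rw [← h]
  symm
  refine Finset.sum_subset (Finset.subset_univ _) fun y _ hy => ?_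
  rw [hx y (by simpa using hy), zero_mul]

lemma dot3 {a b c : Y} (hab : a ≠ b) (hac : a ≠ c) (hbc : b ≠ c) {x : Y → k}
    (hx : ∀ y, y ∉ ({a, b, c} : Set Y) → x y = 0) (z : Y → k) :
    x ⬝ᵥ z = x a * z a + x b * z b + x c * z c := by
  classical
  unfold dotProduct
  have h : ∑ y ∈ ({a, b, c} : Finset Y), x y * z y = x a * z a + x b * z b + x c * z c := by
    rw [Finset.sum_insert (by simp [hab, hac]), Finset.sum_pair hbc, add_assoc]
  rw [← h]
  symm
  refine Finset.sum_subset (Finset.subset_univ _) fun y _ hy => ?_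
  rw [hx y (by simpa using hy), zero_mul]

lemma sum2 {a c : Y} (hac : a ≠ c) {x : Y → k} (hx : ∀ y, y ∉ ({a, c} : Set Y) → x y = 0) :
    ∑ y, x y = x a + x c := by
  have h := dot2 hac hx (fun _ => 1)
  simpa [dotProduct] using h

/-- the conditions on the objects of a gadget -/
def GCond (o : Y) (c : Con Y) (t : Y → k) (g : Fin 5 → Y → k) : Prop :=
  (∀ i y, y ∉ gsupp o c i → g i y = 0) ∧ (∀ i, g i (gpiv o c i) ≠ 0) ∧
    (∀ i j, gR c i j → g i ⬝ᵥ g j = 0) ∧ (∀ i, gR1 c i → ∑ y, g i y = 0) ∧
    ∀ i, gRW c i → g i ⬝ᵥ t = 0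

open Classical in
theorem gad_iff_add (o : Y) (t : Y → k) {a b c : Y} (hab : a ≠ b) (hac : a ≠ c) (hbc : b ≠ c)
    (g : Fin 5 → Y → k) :
    GCond o (Con.add a b c) t g ↔ t a + t b = t c ∧ ∀ i, g i (gpiv o (Con.add a b c) i) ≠ 0 ∧
      ∀ y, g i y = g i (gpiv o (Con.add a b c) i) * gvec o t (Con.add a b c) i y := by
  constructor
  · rintro ⟨hs, hp, hR, h1, hW⟩
    have s0 : ∀ y, y ∉ ({a, c} : Set Y) → g 0 y = 0 := hs 0
    have s1 : ∀ y, y ∉ ({b, c} : Set Y) → g 1 y = 0 := hs 1
    have s2 : ∀ y, y ∉ ({a, c} : Set Y) → g 2 y = 0 := hs 2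
    have s3 : ∀ y, y ∉ ({b, c} : Set Y) → g 3 y = 0 := hs 3
    have s4 : ∀ y, y ∉ ({a, b, c} : Set Y) → g 4 y = 0 := hs 4
    have p0 : g 0 a ≠ 0 := hp 0
    have p1 : g 1 b ≠ 0 := hp 1
    have p2 : g 2 a ≠ 0 := hp 2
    have p3 : g 3 b ≠ 0 := hp 3
    have p4 : g 4 c ≠ 0 := hp 4
    have e0 : g 0 a + g 0 c = 0 := by rw [← sum2 hac s0]; exact h1 0 (Or.inl rfl)
    have e1 : g 1 b + g 1 c = 0 := by rw [← sum2 hbc s1]; exact h1 1 (Or.inr rfl)
    have e2 : g 2 a * g 0 a + g 2 c * g 0 c = 0 := by
      rw [← dot2 hac s2]; exact hR 2 0 (Or.inl ⟨rfl, rfl⟩)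
    have e3 : g 3 b * g 1 b + g 3 c * g 1 c = 0 := by
      rw [← dot2 hbc s3]; exact hR 3 1 (Or.inr (Or.inl ⟨rfl, rfl⟩))
    have e4 : g 2 a * g 4 a + g 2 c * g 4 c = 0 := by
      rw [← dot2 hac s2, dotProduct_comm]; exact hR 4 2 (Or.inr (Or.inr (Or.inl ⟨rfl, rfl⟩)))
    have e5 : g 3 b * g 4 b + g 3 c * g 4 c = 0 := by
      rw [← dot2 hbc s3, dotProduct_comm]; exact hR 4 3 (Or.inr (Or.inr (Or.inr ⟨rfl, rfl⟩)))
    have e6 : g 4 a * t a + g 4 b * t b + g 4 c * t c = 0 := by
      rw [← dot3 hab hac hbc s4]; exact hW 4 rfl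
    have f0 : g 0 c = - g 0 a := by linear_combination e0
    have f1 : g 1 c = - g 1 b := by linear_combination e1
    have f2 : g 2 c = g 2 a := by
      apply mul_right_cancel₀ p0
      rw [f0] at e2
      linear_combination - e2
    have f3 : g 3 c = g 3 b := by
      apply mul_right_cancel₀ p1
      rw [f1] at e3
      linear_combination - e3
    have f4 : g 4 a = - g 4 c := by
      apply mul_left_cancel₀ p2
      rw [f2] at e4
      linear_combination e4
    have f5 : g 4 b = - g 4 c := by
      apply mul_left_cancel₀ p3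
      rw [f3] at e5
      linear_combination e5
    have f6 : t a + t b = t c := by
      apply mul_left_cancel₀ p4
      rw [f4, f5] at e6
      linear_combination - e6
    refine ⟨f6, fun i => ⟨hp i, ?_⟩⟩
    fin_cases i
    · intro y
      show g 0 y = g 0 a * (if y = a then 1 else if y = c then -1 else 0)
      split_ifs with h h'
      · rw [h, mul_one]
      · rw [h', f0]; ring
      · rw [s0 y (by simp [h, h']), mul_zero]
    · intro y
      show g 1 y = g 1 b * (if y = b then 1 else if y = c then -1 else 0)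
      split_ifs with h h'
      · rw [h, mul_one]
      · rw [h', f1]; ring
      · rw [s1 y (by simp [h, h']), mul_zero]
    · intro y
      show g 2 y = g 2 a * (if y = a then 1 else if y = c then 1 else 0)
      split_ifs with h h'
      · rw [h, mul_one]
      · rw [h', f2]; ring
      · rw [s2 y (by simp [h, h']), mul_zero]
    · intro y
      show g 3 y = g 3 b * (if y = b then 1 else if y = c then 1 else 0)
      split_ifs with h h'
      · rw [h, mul_one]
      · rw [h', f3]; ring
      · rw [s3 y (by simp [h, h']), mul_zero]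
    · intro y
      show g 4 y = g 4 c * (if y = c then 1 else if y = a then -1 else if y = b then -1 else 0)
      split_ifs with h h' h''
      · rw [h, mul_one]
      · rw [h', f4]; ring
      · rw [h'', f5]; ring
      · rw [s4 y (by simp [h, h', h'']), mul_zero]
  · rintro ⟨hh, hg⟩
    have p0 : ∀ y, g 0 y = g 0 a * (if y = a then 1 else if y = c then -1 else 0) := (hg 0).2
    have p1 : ∀ y, g 1 y = g 1 b * (if y = b then 1 else if y = c then -1 else 0) := (hg 1).2
    have p2 : ∀ y, g 2 y = g 2 a * (if y = a then 1 else if y = c then 1 else 0) := (hg 2).2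
    have p3 : ∀ y, g 3 y = g 3 b * (if y = b then 1 else if y = c then 1 else 0) := (hg 3).2
    have p4 : ∀ y, g 4 y = g 4 c * (if y = c then 1 else if y = a then -1 else
      if y = b then -1 else 0) := (hg 4).2
    have s0 : ∀ y, y ∉ ({a, c} : Set Y) → g 0 y = 0 := by
      intro y hy
      simp only [Set.mem_insert_iff, Set.mem_singleton_iff, not_or] at hy
      rw [p0, if_neg hy.1, if_neg hy.2, mul_zero]
    have s1 : ∀ y, y ∉ ({b, c} : Set Y) → g 1 y = 0 := by
      intro y hy
      simp only [Set.mem_insert_iff, Set.mem_singleton_iff, not_or] at hy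
      rw [p1, if_neg hy.1, if_neg hy.2, mul_zero]
    have s2 : ∀ y, y ∉ ({a, c} : Set Y) → g 2 y = 0 := by
      intro y hy
      simp only [Set.mem_insert_iff, Set.mem_singleton_iff, not_or] at hy
      rw [p2, if_neg hy.1, if_neg hy.2, mul_zero]
    have s3 : ∀ y, y ∉ ({b, c} : Set Y) → g 3 y = 0 := by
      intro y hy
      simp only [Set.mem_insert_iff, Set.mem_singleton_iff, not_or] at hy
      rw [p3, if_neg hy.1, if_neg hy.2, mul_zero]
    have s4 : ∀ y, y ∉ ({a, b, c} : Set Y) → g 4 y = 0 := by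
      intro y hy
      simp only [Set.mem_insert_iff, Set.mem_singleton_iff, not_or] at hy
      rw [p4, if_neg hy.2.2, if_neg hy.1, if_neg hy.2.1, mul_zero]
    have f0 : g 0 c = - g 0 a := by rw [p0 c]; simp [hac.symm]
    have f1 : g 1 c = - g 1 b := by rw [p1 c]; simp [hbc.symm]
    have f2 : g 2 c = g 2 a := by rw [p2 c]; simp [hac.symm]
    have f3 : g 3 c = g 3 b := by rw [p3 c]; simp [hbc.symm]
    have f4 : g 4 a = - g 4 c := by rw [p4 a]; simp [hac]
    have f5 : g 4 b = - g 4 c := by rw [p4 b]; simp [hbc, hab.symm]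
    refine ⟨?_, fun i => (hg i).1, ?_, ?_, ?_⟩
    · intro i
      fin_cases i
      · exact s0
      · exact s1
      · exact s2
      · exact s3
      · exact s4
    · rintro i j (⟨rfl, rfl⟩ | ⟨rfl, rfl⟩ | ⟨rfl, rfl⟩ | ⟨rfl, rfl⟩)
      · rw [dot2 hac s2, f0, f2]; ring
      · rw [dot2 hbc s3, f1, f3]; ring
      · rw [dotProduct_comm, dot2 hac s2, f2, f4]; ring
      · rw [dotProduct_comm, dot2 hbc s3, f3, f5]; ring
    · rintro i (rfl | rfl)
      · rw [sum2 hac s0, f0]; ring
      · rw [sum2 hbc s1, f1]; ring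
    · intro i hi
      have hi : i = 4 := hi
      subst hi
      rw [dot3 hab hac hbc s4, f4, f5]
      linear_combination - g 4 c * hh

open Classical in
theorem gad_iff_mul (o : Y) (t : Y → k) (ht : t o ≠ 0) {a b c : Y} (hab : a ≠ b) (hac : a ≠ c)
    (hbc : b ≠ c) (hoa : o ≠ a) (hob : o ≠ b) (hoc : o ≠ c) (g : Fin 5 → Y → k) :
    GCond o (Con.mul a b c) t g ↔ t a * t b = t c * t o ∧
      ∀ i, g i (gpiv o (Con.mul a b c) i) ≠ 0 ∧
      ∀ y, g i y = g i (gpiv o (Con.mul a b c) i) * gvec o t (Con.mul a b c) i y := by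
  constructor
  · rintro ⟨hs, hp, hR, h1, hW⟩
    have s0 : ∀ y, y ∉ ({b, o} : Set Y) → g 0 y = 0 := hs 0
    have s1 : ∀ y, y ∉ ({a, o} : Set Y) → g 1 y = 0 := hs 1
    have s2 : ∀ y, y ∉ ({b, c} : Set Y) → g 2 y = 0 := hs 2
    have s3 : ∀ y, y ∉ ({o, a, b, c} : Set Y) → g 3 y = 0 := hs 3
    have s4 : ∀ y, y ∉ ({a, c} : Set Y) → g 4 y = 0 := hs 4
    have p0 : g 0 b ≠ 0 := hp 0
    have p1 : g 1 a ≠ 0 := hp 1
    have p2 : g 2 b ≠ 0 := hp 2
    have p3 : g 3 o ≠ 0 := hp 3
    have p4 : g 4 c ≠ 0 := hp 4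
    have e0 : g 0 b * t b + g 0 o * t o = 0 := by
      rw [← dot2 hob.symm s0]; exact hW 0 (Or.inl rfl)
    have e1 : g 1 a + g 1 o = 0 := by rw [← sum2 hoa.symm s1]; exact h1 1 (Or.inl rfl)
    have e2 : g 2 b + g 2 c = 0 := by rw [← sum2 hbc s2]; exact h1 2 (Or.inr rfl)
    have e3 : g 0 b * g 3 b + g 0 o * g 3 o = 0 := by
      rw [← dot2 hob.symm s0, dotProduct_comm]; exact hR 3 0 (Or.inl ⟨rfl, rfl⟩)
    have e4 : g 1 a * g 3 a + g 1 o * g 3 o = 0 := by
      rw [← dot2 hoa.symm s1, dotProduct_comm]; exact hR 3 1 (Or.inr (Or.inl ⟨rfl, rfl⟩))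
    have e5 : g 2 b * g 3 b + g 2 c * g 3 c = 0 := by
      rw [← dot2 hbc s2, dotProduct_comm]; exact hR 3 2 (Or.inr (Or.inr (Or.inl ⟨rfl, rfl⟩)))
    have e6 : g 4 a * g 3 a + g 4 c * g 3 c = 0 := by
      rw [← dot2 hac s4]; exact hR 4 3 (Or.inr (Or.inr (Or.inr ⟨rfl, rfl⟩)))
    have e7 : g 4 a * t a + g 4 c * t c = 0 := by
      rw [← dot2 hac s4]; exact hW 4 (Or.inr rfl)
    have f0 : g 0 o = g 0 b * - (t b / t o) := by
      field_simp
      linear_combination e0
    have f1 : g 1 o = - g 1 a := by linear_combination e1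
    have f2 : g 2 c = - g 2 b := by linear_combination e2
    have f3 : g 3 b = g 3 o * (t b / t o) := by
      apply mul_left_cancel₀ p0
      rw [f0] at e3
      linear_combination e3
    have f4 : g 3 a = g 3 o := by
      apply mul_left_cancel₀ p1
      rw [f1] at e4
      linear_combination e4
    have f5 : g 3 c = g 3 o * (t b / t o) := by
      rw [← f3]
      apply mul_left_cancel₀ p2
      rw [f2] at e5
      linear_combination - e5
    have f6 : g 4 a = g 4 c * - (t b / t o) := by
      apply mul_right_cancel₀ p3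
      rw [f4, f5] at e6
      linear_combination e6
    have f7 : t a * t b = t c * t o := by
      apply mul_left_cancel₀ p4
      rw [f6] at e7
      field_simp at e7
      linear_combination - e7
    refine ⟨f7, fun i => ⟨hp i, ?_⟩⟩
    fin_cases i
    · intro y
      show g 0 y = g 0 b * (if y = b then 1 else if y = o then - (t b / t o) else 0)
      split_ifs with h h'
      · rw [h, mul_one]
      · rw [h', f0]
      · rw [s0 y (by simp [h, h']), mul_zero]
    · intro y
      show g 1 y = g 1 a * (if y = a then 1 else if y = o then -1 else 0)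
      split_ifs with h h'
      · rw [h, mul_one]
      · rw [h', f1]; ring
      · rw [s1 y (by simp [h, h']), mul_zero]
    · intro y
      show g 2 y = g 2 b * (if y = b then 1 else if y = c then -1 else 0)
      split_ifs with h h'
      · rw [h, mul_one]
      · rw [h', f2]; ring
      · rw [s2 y (by simp [h, h']), mul_zero]
    · intro y
      show g 3 y = g 3 o * (if y = o then 1 else if y = a then 1 else
        if y = b then t b / t o else if y = c then t b / t o else 0)
      split_ifs with h h' h'' h'''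
      · rw [h, mul_one]
      · rw [h', f4, mul_one]
      · rw [h'', f3]
      · rw [h''', f5]
      · rw [s3 y (by simp [h, h', h'', h''']), mul_zero]
    · intro y
      show g 4 y = g 4 c * (if y = c then 1 else if y = a then - (t b / t o) else 0)
      split_ifs with h h'
      · rw [h, mul_one]
      · rw [h', f6]
      · rw [s4 y (by simp [h, h']), mul_zero]
  · rintro ⟨hh, hg⟩
    have p0 : ∀ y, g 0 y = g 0 b * (if y = b then 1 else if y = o then - (t b / t o) else 0) :=
      (hg 0).2
    have p1 : ∀ y, g 1 y = g 1 a * (if y = a then 1 else if y = o then -1 else 0) := (hg 1).2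
    have p2 : ∀ y, g 2 y = g 2 b * (if y = b then 1 else if y = c then -1 else 0) := (hg 2).2
    have p3 : ∀ y, g 3 y = g 3 o * (if y = o then 1 else if y = a then 1 else
        if y = b then t b / t o else if y = c then t b / t o else 0) := (hg 3).2
    have p4 : ∀ y, g 4 y = g 4 c * (if y = c then 1 else if y = a then - (t b / t o) else 0) :=
      (hg 4).2
    have s0 : ∀ y, y ∉ ({b, o} : Set Y) → g 0 y = 0 := by
      intro y hy
      simp only [Set.mem_insert_iff, Set.mem_singleton_iff, not_or] at hy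
      rw [p0, if_neg hy.1, if_neg hy.2, mul_zero]
    have s1 : ∀ y, y ∉ ({a, o} : Set Y) → g 1 y = 0 := by
      intro y hy
      simp only [Set.mem_insert_iff, Set.mem_singleton_iff, not_or] at hy
      rw [p1, if_neg hy.1, if_neg hy.2, mul_zero]
    have s2 : ∀ y, y ∉ ({b, c} : Set Y) → g 2 y = 0 := by
      intro y hy
      simp only [Set.mem_insert_iff, Set.mem_singleton_iff, not_or] at hy
      rw [p2, if_neg hy.1, if_neg hy.2, mul_zero]
    have s3 : ∀ y, y ∉ ({o, a, b, c} : Set Y) → g 3 y = 0 := by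
      intro y hy
      simp only [Set.mem_insert_iff, Set.mem_singleton_iff, not_or] at hy
      rw [p3, if_neg hy.1, if_neg hy.2.1, if_neg hy.2.2.1, if_neg hy.2.2.2, mul_zero]
    have s4 : ∀ y, y ∉ ({a, c} : Set Y) → g 4 y = 0 := by
      intro y hy
      simp only [Set.mem_insert_iff, Set.mem_singleton_iff, not_or] at hy
      rw [p4, if_neg hy.2, if_neg hy.1, mul_zero]
    have f0 : g 0 o = g 0 b * - (t b / t o) := by rw [p0 o]; simp [hob]
    have f1 : g 1 o = - g 1 a := by rw [p1 o]; simp [hoa]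
    have f2 : g 2 c = - g 2 b := by rw [p2 c]; simp [hbc.symm]
    have f3 : g 3 b = g 3 o * (t b / t o) := by rw [p3 b]; simp [hob.symm, hab.symm]
    have f4 : g 3 a = g 3 o := by rw [p3 a]; simp [hoa.symm]
    have f5 : g 3 c = g 3 o * (t b / t o) := by
      rw [p3 c]; simp [hoc.symm, hac.symm, hbc.symm]
    have f6 : g 4 a = g 4 c * - (t b / t o) := by rw [p4 a]; simp [hac]
    refine ⟨?_, fun i => (hg i).1, ?_, ?_, ?_⟩
    · intro i
      fin_cases i
      · exact s0
      · exact s1
      · exact s2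
      · exact s3
      · exact s4
    · rintro i j (⟨rfl, rfl⟩ | ⟨rfl, rfl⟩ | ⟨rfl, rfl⟩ | ⟨rfl, rfl⟩)
      · rw [dotProduct_comm, dot2 hob.symm s0, f0, f3]; ring
      · rw [dotProduct_comm, dot2 hoa.symm s1, f1, f4]; ring
      · rw [dotProduct_comm, dot2 hbc s2, f2, f3, f5]; ring
      · rw [dot2 hac s4, f4, f5, f6]; ring
    · rintro i (rfl | rfl)
      · rw [sum2 hoa.symm s1, f1]; ring
      · rw [sum2 hbc s2, f2]; ring
    · rintro i (rfl | rfl)
      · rw [dot2 hob.symm s0, f0]
        field_simp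
        ring
      · rw [dot2 hac s4, f6]
        field_simp
        linear_combination (- g 4 c) * hh

/-- **gadget lemma** -/
theorem gad_iff (o : Y) (t : Y → k) (ht : t o ≠ 0) (c : Con Y) (hc : c.Ok o)
    (g : Fin 5 → Y → k) :
    GCond o c t g ↔ c.Holds o t ∧ ∀ i, g i (gpiv o c i) ≠ 0 ∧
      ∀ y, g i y = g i (gpiv o c i) * gvec o t c i y := by
  cases c with
  | add a b c => exact gad_iff_add o t hc.1 hc.2.1 hc.2.2 g
  | mul a b c =>
    exact gad_iff_mul o t ht hc.1 hc.2.1 hc.2.2.1 hc.2.2.2.1 hc.2.2.2.2.1 hc.2.2.2.2.2 g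

end

end Pool.Agent.Helper50.KR
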