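import Pool.Agent.Helper50.KR.Frame
import Pool.Agent.Helper50.KR.Gadget
import Pool.Agent.Helper50.KR.Corank

/-!
# The number of solutions of a system of additions and multiplications
-/

set_option autoImplicit false

open Matrix Module Polynomial Pool.Agent.Helper29.Zeta

namespace Pool.Agent.Helper50.KR

section
variable {Y C : Type}

/-- lines of the configuration -/
def cline (cs : C → Con Y) : Option (C × Fin 5) → Bool
  | none => false
  | some (c, i) => gline (cs c) i

/-- supports -/
def csupp (o : Y) (S : Set Y) (cs : C → Con Y) : Option (C × Fin 5) → Set Y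
  | none => Sᶜ
  | some (c, i) => gsupp o (cs c) i

/-- nonzero coordinates -/
def cnz (o : Y) (cs : C → Con Y) : Option (C × Fin 5) → Set Y
  | none => {o}
  | some (c, i) => {gpiv o (cs c) i}

/-- incidences -/
def cR (cs : C → Con Y) : Option (C × Fin 5) → Option (C × Fin 5) → Prop
  | some (c, i), some (c', j) => c = c' ∧ gR (cs c) i j
  | some (c, i), none => gRW (cs c) i
  | _, _ => False

/-- incidences with `(1, ..., 1)` -/
def cR1 (cs : C → Con Y) : Option (C × Fin 5) → Prop
  | none => False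
  | some (c, i) => gR1 (cs c) i

lemma cR_line (cs : C → Con Y) (i j : Option (C × Fin 5)) (h : cR cs i j) :
    cline cs i ≠ cline cs j := by
  match i, j, h with
  | some (c, i), some (c', j), h =>
    obtain ⟨h1, h2⟩ : c = c' ∧ gR (cs c) i j := h
    subst h1
    exact gR_line (cs c) i j h2
  | some (c, i), none, h =>
    have h2 := gRW_line (cs c) i h
    show gline (cs c) i ≠ false
    rw [h2]
    exact Bool.noConfusion

lemma cR1_line (cs : C → Con Y) (i : Option (C × Fin 5)) (h : cR1 cs i) :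
    cline cs i = true := by
  match i, h with
  | some (c, i), h => exact gR1_line (cs c) i h

variable {k : Type} [Field k] [Fintype Y]

/-- the realisations of the configuration -/
lemma csol_iff (o : Y) (S : Set Y) (cs : C → Con Y) (v : Option (C × Fin 5) → Y → k) :
    CSol (csupp o S cs) (cnz o cs) (cR cs) (cR1 cs) v ↔
      (v none o ≠ 0 ∧ ∀ y ∈ S, v none y = 0) ∧
        ∀ c, GCond o (cs c) (v none) (fun i => v (some (c, i))) := by
  constructor
  · rintro ⟨h1, h2, h3, h4⟩
    refine ⟨⟨h2 none o rfl, fun y hy => h1 none y fun h => h hy⟩, fun c => ⟨fun i => h1 (some (c, i)),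
      fun i => h2 (some (c, i)) _ rfl, fun i j h => h3 (some (c, i)) (some (c, j)) ⟨rfl, h⟩,
      fun i h => h4 (some (c, i)) h, fun i h => h3 (some (c, i)) none h⟩⟩
  · rintro ⟨⟨h1, h2⟩, h3⟩
    refine ⟨?_, ?_, ?_, ?_⟩
    · rintro (_ | ⟨c, i⟩) y hy
      · exact h2 y (not_not.1 hy)
      · exact (h3 c).1 i y hy
    · rintro (_ | ⟨c, i⟩) y hy
      · have hy : y = o := hy
        rw [hy]
        exact h1
      · have hy : y = gpiv o (cs c) i := hy
        rw [hy]
        exact (h3 c).2.1 i
    · intro i j h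
      match i, j, h with
      | some (c, i), some (c', j), h =>
        obtain ⟨h1, h2⟩ : c = c' ∧ gR (cs c) i j := h
        subst h1
        exact (h3 c).2.2.1 i j h2
      | some (c, i), none, h => exact (h3 c).2.2.2.2 i h
    · intro i h
      match i, h with
      | some (c, i), h => exact (h3 c).2.2.2.1 i h

/-- homogeneity of the constraints -/
lemma holds_smul (o : Y) (c : Con Y) (t : Y → k) (s : kˣ) :
    c.Holds o (fun y => (s : k) * t y) ↔ c.Holds o t := by
  cases c with
  | add a b c =>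
    show (s : k) * t a + s * t b = s * t c ↔ t a + t b = t c
    rw [← mul_add]
    exact ⟨fun h => mul_left_cancel₀ s.ne_zero h, fun h => by rw [h]⟩
  | mul a b c =>
    show (s : k) * t a * (s * t b) = s * t c * (s * t o) ↔ t a * t b = t c * t o
    constructor
    · intro h
      apply mul_left_cancel₀ (mul_ne_zero s.ne_zero s.ne_zero)
      linear_combination h
    · intro h
      linear_combination (s : k) * s * h

/-- the solutions -/
def XSol (k : Type) [Field k] (o : Y) (S : Set Y) (cs : C → Con Y) : Type :=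
  {x : Y → k // x o = 1 ∧ (∀ y ∈ S, x y = 0) ∧ ∀ c, (cs c).Holds o x}

theorem csol_card (o : Y) (S : Set Y) (cs : C → Con Y) (hcs : ∀ c, (cs c).Ok o) :
    Nat.card {v : Option (C × Fin 5) → Y → k //
      CSol (csupp o S cs) (cnz o cs) (cR cs) (cR1 cs) v} =
      Nat.card kˣ * (Nat.card (C × Fin 5 → kˣ) * Nat.card (XSol k o S cs)) := by
  classical
  rw [← Nat.card_prod, ← Nat.card_prod]
  symm
  have hx : ∀ (s : kˣ) (x : XSol k o S cs), (s : k) * x.1 o ≠ 0 := by
    intro s x
    rw [x.2.1, mul_one]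
    exact s.ne_zero
  let F : kˣ × ((C × Fin 5 → kˣ) × XSol k o S cs) → Option (C × Fin 5) → Y → k := fun p i =>
    match i with
    | none => fun y => (p.1 : k) * p.2.2.1 y
    | some (c, i) => fun y => (p.2.1 (c, i) : k) * gvec o (fun y => (p.1 : k) * p.2.2.1 y) (cs c) i y
  have hF : ∀ p, CSol (csupp o S cs) (cnz o cs) (cR cs) (cR1 cs) (F p) := by
    rintro ⟨s, u, x⟩
    rw [csol_iff]
    refine ⟨⟨hx s x, fun y hy => ?_⟩, fun c => ?_⟩
    · show (s : k) * x.1 y = 0
      rw [x.2.2.1 y hy, mul_zero]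
    · show GCond o (cs c) (fun y => (s : k) * x.1 y) _
      rw [gad_iff o _ (hx s x) (cs c) (hcs c)]
      refine ⟨(holds_smul o (cs c) x.1 s).2 (x.2.2.2 c), fun i => ?_⟩
      have h1 : F (s, u, x) (some (c, i)) (gpiv o (cs c) i) = (u (c, i) : k) := by
        show (u (c, i) : k) * gvec o (fun y => (s : k) * x.1 y) (cs c) i (gpiv o (cs c) i) = _
        rw [gvec_piv, mul_one]
      refine ⟨?_, fun y => ?_⟩
      · show F (s, u, x) (some (c, i)) (gpiv o (cs c) i) ≠ 0
        rw [h1]
        exact (u (c, i)).ne_zero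
      · show F (s, u, x) (some (c, i)) y = F (s, u, x) (some (c, i)) (gpiv o (cs c) i) * _
        rw [h1]
  refine Nat.card_eq_of_bijective (fun p => ⟨F p, hF p⟩) ⟨?_, ?_⟩
  · rintro ⟨s, u, x⟩ ⟨s', u', x'⟩ h
    have h0 : F (s, u, x) = F (s', u', x') := congrArg Subtype.val h
    have h1 : (fun y => (s : k) * x.1 y) = fun y => (s' : k) * x'.1 y := congrFun h0 none
    have h2 : s = s' := by
      have h3 := congrFun h1 o
      simp only [x.2.1, x'.2.1, mul_one] at h3
      exact Units.ext h3
    subst h2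
    have h3 : x = x' := by
      apply Subtype.ext
      funext y
      exact mul_left_cancel₀ s.ne_zero (congrFun h1 y)
    subst h3
    have h4 : u = u' := by
      funext ⟨c, i⟩
      have h5 : (u (c, i) : k) * gvec o (fun y => (s : k) * x.1 y) (cs c) i (gpiv o (cs c) i) =
        (u' (c, i) : k) * gvec o (fun y => (s : k) * x.1 y) (cs c) i (gpiv o (cs c) i) :=
        congrFun (congrFun h0 (some (c, i))) _
      rw [gvec_piv, mul_one, mul_one] at h5
      exact Units.ext h5
    subst h4
    rfl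
  · rintro ⟨v, hv⟩
    obtain ⟨⟨h1, h2⟩, h3⟩ := (csol_iff o S cs v).1 hv
    have h4 := fun c => (gad_iff o _ h1 (cs c) (hcs c) _).1 (h3 c)
    set s : kˣ := Units.mk0 _ h1 with hs
    have hsv : (s : k) = v none o := rfl
    have h5 : (fun y => (s : k) * ((s : k)⁻¹ * v none y)) = v none := by
      funext y
      rw [← mul_assoc, mul_inv_cancel₀ s.ne_zero, one_mul]
    refine ⟨⟨s, fun p => Units.mk0 (v (some p) (gpiv o (cs p.1) p.2)) ((h4 p.1).2 p.2).1,
      ⟨fun y => (s : k)⁻¹ * v none y, ?_, ?_, ?_⟩⟩, ?_⟩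
    · show (s : k)⁻¹ * v none o = 1
      rw [← hsv]
      exact inv_mul_cancel₀ s.ne_zero
    · intro y hy
      show (s : k)⁻¹ * v none y = 0
      rw [h2 y hy, mul_zero]
    · intro c
      have h6 := (h4 c).1
      rw [← h5] at h6
      exact (holds_smul o (cs c) _ s).1 h6
    · apply Subtype.ext
      funext i
      match i with
      | none => exact h5
      | some (c, i) =>
        funext y
        show v (some (c, i)) (gpiv o (cs c) i) *
          gvec o (fun y => (s : k) * ((s : k)⁻¹ * v none y)) (cs c) i y = v (some (c, i)) y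
        rw [h5]
        exact (((h4 c).2 i).2 y).symm

end

lemma card_units_FF {n : ℕ} (hn : IsPrimePow n) : (Nat.card (FF n)ˣ : ℤ) = (n : ℤ) - 1 := by
  rw [Nat.card_units, card_FF hn, Nat.cast_sub hn.one_lt.le]
  rfl

section
variable (hyp : ∀ (ι : Type) [Fintype ι] (Z : Set (ι × ι)), (∀ p ∈ Z, p.1 ≠ p.2) →
  MG (fun n => (scount (FF n) ι Z ∅ (Fintype.card ι) : ℤ)))

include hyp

/-- **systems of additions and multiplications** -/
theorem mg_XSol {Y K : Type} [Fintype Y] [Fintype K] (o : Y) (S : Set Y) (cs : K → Con Y)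
    (hcs : ∀ c, (cs c).Ok o) : MG (fun n => (Nat.card (XSol (FF n) o S cs) : ℤ)) := by
  have hz : ∀ p ∈ {p : ((Y ⊕ Y) ⊕ Option (Option (K × Fin 5))) ×
      ((Y ⊕ Y) ⊕ Option (Option (K × Fin 5))) | FZ (csupp o S cs) (cR cs) (cR1 cs) p.1 p.2},
      p.1 ≠ p.2 := by
    rintro ⟨a, b⟩ h hab
    replace hab : a = b := hab
    subst hab
    replace h : FZ (csupp o S cs) (cR cs) (cR1 cs) a a := h
    match a, h with
    | Sum.inl (Sum.inl y), h => exact h rfl
    | Sum.inr (some i), h => exact cR_line cs i i h rfl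
  have hn : ∀ p ∈ {p : ((Y ⊕ Y) ⊕ Option (Option (K × Fin 5))) ×
      ((Y ⊕ Y) ⊕ Option (Option (K × Fin 5))) | FN (cnz o cs) p.1 p.2}, p.1 ≠ p.2 := by
    rintro ⟨a, b⟩ h hab
    replace hab : a = b := hab
    subst hab
    replace h : FN (cnz o cs) a a := h
    match a, h with
    | Sum.inl (Sum.inl y), h => exact h
    | Sum.inr (some i), h => exact h
  have h1 := mg_scount hyp ((Y ⊕ Y) ⊕ Option (Option (K × Fin 5))) (Fintype.card Y) _ _ hz hn
  have hP : ((X - C 1 : ℤ[X]) ^ (3 * Fintype.card Y + 1 + Fintype.card (K × Fin 5))).Monic :=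
    (monic_X_sub_C 1).pow _
  have hg : Growth (fun n => ((Nat.card (XSol (FF n) o S cs) : ℤ) : ℂ)) :=
    growth_card Y fun n x => x o = 1 ∧ (∀ y ∈ S, x y = 0) ∧ ∀ c, (cs c).Holds o x
  refine MG.of_monic hg hP (h1.congr fun n hn => ?_)
  have h2 := frame_count (k := FF n) (cline cs) (csupp o S cs) (cnz o cs) (cR cs) (cR_line cs)
    (cR1 cs) (cR1_line cs)
  have h3 := csol_card (k := FF n) o S cs hcs
  have h4 := card_units_FF hn
  rw [Nat.card_fun, Nat.card_eq_fintype_card (α := K × Fin 5)] at h3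
  rw [h2, h3]
  push_cast
  rw [h4]
  simp only [eval_pow, eval_sub, eval_X, eval_C]
  ring

end

end Pool.Agent.Helper50.KR
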