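import Pool.Agent.Helper50.KR.Univ
import Pool.Agent.Helper50.KR.Config

/-!
# The main reduction
-/

set_option autoImplicit false

open AlgebraicGeometry Pool.Agent.Helper29.Zeta

namespace Pool.Agent.Helper50.KR

lemma ev_eta {σ Y k : Type} [Field k] (t : Option (σ ⊕ Y) → k) (h : t none = 1) :
    ev (fun i => t (some (Sum.inl i))) (fun j => t (some (Sum.inr j))) = t := by
  funext a
  match a with
  | none => exact h.symm
  | some (Sum.inl i) => rfl
  | some (Sum.inr j) => rfl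

/-- the zeros of a system of polynomials as solutions of additions and multiplications -/
theorem exists_system {σ Φ : Type} [Fintype σ] [Fintype Φ] (F : Φ → MvPolynomial σ ℤ) :
    ∃ (Y K : Type) (_ : Fintype Y) (_ : Fintype K) (o : Y) (S : Set Y) (cs : K → Con Y),
      (∀ c, (cs c).Ok o) ∧ ∀ (k : Type) [Field k],
        Nat.card {x : σ → k // ∀ f, MvPolynomial.aeval x (F f) = 0} = Nat.card (XSol k o S cs) := by
  obtain ⟨D, hD⟩ := universal F
  haveI := D.fY
  haveI := D.fK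
  refine ⟨Option (σ ⊕ D.Y), D.K, inferInstance, D.fK, none, (fun j => some (Sum.inr j)) '' D.S,
    D.cs, D.ok, fun k _ => ?_⟩
  choose y0 hy0 using fun x : σ → k => hD k x
  have h1 : ∀ x : {x : σ → k // ∀ f, MvPolynomial.aeval x (F f) = 0}, D.Sol x.1 (y0 x.1) :=
    fun x => (hy0 x.1 (y0 x.1)).2 ⟨rfl, x.2⟩
  refine Nat.card_eq_of_bijective (fun x => ⟨ev x.1 (y0 x.1), rfl, ?_, (h1 x).2⟩) ⟨?_, ?_⟩
  · rintro _ ⟨j, hj, rfl⟩
    exact (h1 x).1 j hj
  · intro x x' h
    apply Subtype.ext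
    funext i
    exact congrFun (congrArg Subtype.val h) (some (Sum.inl i))
  · rintro ⟨t, ht1, ht2, ht3⟩
    have h2 : D.Sol (fun i => t (some (Sum.inl i))) (fun j => t (some (Sum.inr j))) := by
      refine ⟨fun j hj => ht2 _ ⟨j, hj, rfl⟩, ?_⟩
      rw [ev_eta t ht1]
      exact ht3
    obtain ⟨h3, h4⟩ := (hy0 _ _).1 h2
    refine ⟨⟨fun i => t (some (Sum.inl i)), h4⟩, ?_⟩
    apply Subtype.ext
    show ev _ (y0 _) = t
    rw [← h3]
    exact ev_eta t ht1

section
variable (hyp : ∀ (ι : Type) [Fintype ι] (Z : Set (ι × ι)), (∀ p ∈ Z, p.1 ≠ p.2) →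
  MG (fun n => (scount (FF n) ι Z ∅ (Fintype.card ι) : ℤ)))

include hyp

theorem mg_zeros {σ Φ : Type} [Fintype σ] [Fintype Φ] (F : Φ → MvPolynomial σ ℤ) :
    MG (fun n => (Nat.card {x : σ → FF n // ∀ f, MvPolynomial.aeval x (F f) = 0} : ℤ)) := by
  obtain ⟨Y, K, _, _, o, S, cs, hcs, h⟩ := exists_system F
  refine (mg_XSol hyp o S cs hcs).congr fun n _ => ?_
  rw [h]

theorem mero_zcount_KR {r d : ℕ} {Φ : Type} [Fintype Φ] (c : Φ → Mon r d → ℤ) :
    Mero (fun n => (zcount (FF n) c : ℂ)) := by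
  classical
  have h := mg_zeros hyp (σ := Fin r) (Φ := Φ) fun f =>
    ∑ m, MvPolynomial.C (c f m) * ∏ j, MvPolynomial.X j ^ (m j : ℕ)
  refine h.2.congr fun n _ => ?_
  unfold zcount
  have h1 : (Nat.card {x : Fin r → FF n // ∀ f, MvPolynomial.aeval x
      (∑ m, MvPolynomial.C (c f m) * ∏ j, MvPolynomial.X j ^ (m j : ℕ)) = 0}) =
      (Finset.univ.filter fun x : Fin r → FF n => ∀ f, pval c f x = 0).card := by
    rw [← Fintype.card_subtype, ← Nat.card_eq_fintype_card]
    refine Nat.card_congr (Equiv.subtypeEquivRight fun x => ?_)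
    refine forall_congr' fun f => ?_
    unfold pval mval
    rw [map_sum]
    simp only [map_mul, map_prod, map_pow, MvPolynomial.aeval_X, MvPolynomial.aeval_C]
    exact Iff.rfl
  beta_reduce
  rw [h1]
  push_cast
  rfl

theorem mero_cnt_KR (A : Type) [CommRing A] [Algebra.FiniteType ℤ A] (I : Ideal A) :
    Mero (fun n => (cnt A I n : ℂ)) := by
  obtain ⟨r, d, C, Φ, _, c, hC, h⟩ := exists_presentation A I
  refine (mero_zcount_KR hyp c).congr fun n _ => ?_
  rw [h n]

/-- **Main theorem**, the non-trivial direction. -/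
theorem all_of_scount (X : Scheme.{0}) (f : X ⟶ Spec (CommRingCat.of ℤ))
    (hf : LocallyOfFiniteType f) (hq : QuasiCompact f) : ZetaMero X :=
  geom_main (fun A _ I => mero_cnt_KR hyp A I) X f

end

/-- the trivial direction -/
theorem kirchhoff_of_all
    (h : ∀ (X : Scheme.{0}) (f : X ⟶ Spec (CommRingCat.of ℤ)),
      LocallyOfFiniteType f → QuasiCompact f → ZetaMero X)
    {V : Type} [Fintype V] (G : SimpleGraph V) :
    ZetaMero (Spec (CommRingCat.of (MvPolynomial G.edgeSet ℤ ⧸ Ideal.span {kirchhoff G}))) := by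
  classical
  have h1 : Algebra.FiniteType ℤ (MvPolynomial G.edgeSet ℤ ⧸ Ideal.span {kirchhoff G}) :=
    Algebra.FiniteType.of_surjective (Ideal.Quotient.mkₐ ℤ _) (Ideal.Quotient.mkₐ_surjective ℤ _)
  refine h _ (Spec.map (CommRingCat.ofHom (algebraMap ℤ
    (MvPolynomial G.edgeSet ℤ ⧸ Ideal.span {kirchhoff G})))) ?_ inferInstance
  rw [HasRingHomProperty.Spec_iff (P := @LocallyOfFiniteType)]
  exact RingHom.finiteType_algebraMap.mpr h1

end Pool.Agent.Helper50.KR
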