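import Mathlib

/-!
# Counts of symmetric matrices with prescribed zeros, and Kirchhoff polynomials: definitions
-/

set_option autoImplicit false

open MvPolynomial

namespace Pool.Agent.Helper50.KR

/-- the number of symmetric matrices of rank `r` over `k` with index set `ι` whose entries vanish at
the positions in `Z` and do not vanish at the positions in `N` -/
noncomputable def scount (k : Type) [Field k] (ι : Type) [Fintype ι] (Z N : Set (ι × ι)) (r : ℕ) : ℕ :=
  Nat.card {M : Matrix ι ι k // M.IsSymm ∧ (∀ p ∈ Z, M p.1 p.2 = 0) ∧ (∀ p ∈ N, M p.1 p.2 ≠ 0) ∧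
    M.rank = r}

section
variable {V : Type}

/-- `T` is (the set of edges of) a spanning tree of `G` -/
def IsSpanningTree (G : SimpleGraph V) (T : Finset G.edgeSet) : Prop :=
  (SimpleGraph.fromEdgeSet (Subtype.val '' (T : Set G.edgeSet))).IsTree

open Classical in
/-- the Kirchhoff polynomial: the sum over the spanning trees `T` of the product of the variables
`x e`, `e ∈ T` -/
noncomputable def kirchhoff [Fintype V] (G : SimpleGraph V) : MvPolynomial G.edgeSet ℤ :=
  ∑ T : Finset G.edgeSet, if IsSpanningTree G T then ∏ e ∈ T, X e else 0

open Classical in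
/-- the weighted Laplacian without the row and the column of the vertex `o` -/
noncomputable def redLap [Fintype V] (G : SimpleGraph V) (o : V) {R : Type*} [CommRing R]
    (x : G.edgeSet → R) : Matrix {v // v ≠ o} {v // v ≠ o} R :=
  fun v w => if v = w then ∑ e : G.edgeSet, if v.1 ∈ e.1 then x e else 0 else
    if h : G.Adj v.1 w.1 then - x ⟨s(v.1, w.1), h⟩ else 0

end

/-- the graph on `Option ι`: `none` is adjacent to all other vertices, `some i` and `some j` are
adjacent if `i ≠ j` and neither `(i, j)` nor `(j, i)` is in `Z` -/
def coneGraph {ι : Type} (Z : Set (ι × ι)) : SimpleGraph (Option ι) where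
  Adj a b := match a, b with
    | none, none => False
    | none, some _ => True
    | some _, none => True
    | some i, some j => i ≠ j ∧ (i, j) ∉ Z ∧ (j, i) ∉ Z
  symm := ⟨by
    rintro (_ | i) (_ | j) h
    · exact h
    · trivial
    · trivial
    · exact ⟨h.1.symm, h.2.2, h.2.1⟩⟩
  loopless := ⟨by
    rintro (_ | i) h
    · exact h
    · exact h.1 rfl⟩

end Pool.Agent.Helper50.KR
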