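import Pool.Agent.Helper50.KR.FrameRank
import Pool.Agent.Helper50.KR.Defs

/-!
# Counting configurations of points and lines by symmetric matrices
-/

set_option autoImplicit false

open Matrix Module

namespace Pool.Agent.Helper50.KR

section
variable {k : Type} [Field k] {Y J : Type} [Fintype Y]

/-- a realisation of the configuration with supports `supp`, nonzero coordinates `nz`, incidences
`R`, incidences `R1` with the point `(1, ..., 1)` -/
def CSol (supp nz : J → Set Y) (R : J → J → Prop) (R1 : J → Prop) (v : J → Y → k) : Prop :=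
  (∀ j y, y ∉ supp j → v j y = 0) ∧ (∀ j y, y ∈ nz j → v j y ≠ 0) ∧
    (∀ i j, R i j → v i ⬝ᵥ v j = 0) ∧ ∀ j, R1 j → ∑ y, v j y = 0

/-- the zero pattern -/
def FZ (supp : J → Set Y) (R : J → J → Prop) (R1 : J → Prop) :
    (Y ⊕ Y) ⊕ Option J → (Y ⊕ Y) ⊕ Option J → Prop
  | Sum.inl (Sum.inl y), Sum.inl (Sum.inl y') => y ≠ y'
  | Sum.inl (Sum.inl y), Sum.inl (Sum.inr y') => y ≠ y'
  | Sum.inl (Sum.inl y), Sum.inr (some j) => y ∉ supp j
  | Sum.inr (some i), Sum.inr (some j) => R i j
  | Sum.inr (some i), Sum.inr none => R1 i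
  | _, _ => False

/-- the nonzero pattern -/
def FN (nz : J → Set Y) : (Y ⊕ Y) ⊕ Option J → (Y ⊕ Y) ⊕ Option J → Prop
  | Sum.inl (Sum.inl y), Sum.inl (Sum.inr y') => y = y'
  | Sum.inl (Sum.inl _), Sum.inr none => True
  | Sum.inl (Sum.inl y), Sum.inr (some j) => y ∈ nz j
  | _, _ => False

open Classical in
/-- the rows of the frame -/
noncomputable def fB (line : J → Bool) (κ μ ν : Y → k) (v : J → Y → k) : Y → (Y ⊕ Y) ⊕ Option J → k
  | y, Sum.inl (Sum.inl y') => if y = y' then κ y else 0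
  | y, Sum.inl (Sum.inr y') => if y = y' then μ y else 0
  | y, Sum.inr none => ν y
  | y, Sum.inr (some j) => if line j then v j y * κ y / ν y else v j y * ν y

/-- the matrix -/
noncomputable def fM (line : J → Bool) (κ μ ν : Y → k) (v : J → Y → k) :
    Matrix ((Y ⊕ Y) ⊕ Option J) ((Y ⊕ Y) ⊕ Option J) k :=
  fun x x' => ∑ y, fB line κ μ ν v y x * fB line κ μ ν v y x' / κ y

lemma fM_frame (line : J → Bool) (κ μ ν : Y → k) (v : J → Y → k) (hκ : ∀ y, κ y ≠ 0) (y : Y)
    (x : (Y ⊕ Y) ⊕ Option J) :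
    fM line κ μ ν v (Sum.inl (Sum.inl y)) x = fB line κ μ ν v y x := by
  classical
  unfold fM
  rw [Finset.sum_eq_single y]
  · have h : fB line κ μ ν v y (Sum.inl (Sum.inl y)) = κ y := by simp [fB]
    rw [h]
    field_simp [hκ y]
  · intro y' _ hy'
    have h : fB line κ μ ν v y' (Sum.inl (Sum.inl y)) = 0 := by simp [fB, hy']
    rw [h, zero_mul, zero_div]
  · intro h
    exact absurd (Finset.mem_univ y) h

lemma fM_symm (line : J → Bool) (κ μ ν : Y → k) (v : J → Y → k) : (fM line κ μ ν v).IsSymm := by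
  refine Matrix.IsSymm.ext fun i j => ?_
  unfold fM
  refine Finset.sum_congr rfl fun y _ => ?_
  ring

lemma fM_inc (line : J → Bool) (κ μ ν : Y → k) (v : J → Y → k) (hκ : ∀ y, κ y ≠ 0)
    (hν : ∀ y, ν y ≠ 0) {i j : J} (h : line i ≠ line j) :
    fM line κ μ ν v (Sum.inr (some i)) (Sum.inr (some j)) = v i ⬝ᵥ v j := by
  unfold fM dotProduct
  refine Finset.sum_congr rfl fun y _ => ?_
  have h1 := hκ y
  have h2 := hν y
  cases hi : line i <;> cases hj : line j <;> rw [hi, hj] at h <;>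
    simp only [fB, hi, hj, if_true, Bool.false_eq_true, if_false] <;>
    first | exact absurd rfl h | field_simp

lemma fM_inc1 (line : J → Bool) (κ μ ν : Y → k) (v : J → Y → k) (hκ : ∀ y, κ y ≠ 0)
    (hν : ∀ y, ν y ≠ 0) {j : J} (h : line j = true) :
    fM line κ μ ν v (Sum.inr (some j)) (Sum.inr none) = ∑ y, v j y := by
  unfold fM
  refine Finset.sum_congr rfl fun y _ => ?_
  have h1 := hκ y
  have h2 := hν y
  simp only [fB, h, if_true]
  field_simp

variable [Fintype J]

/-- the matrices counted by `scount` for the frame pattern are exactly the matrices `fM` -/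
theorem frame_bij (line : J → Bool) (supp nz : J → Set Y) (R : J → J → Prop)
    (hR : ∀ i j, R i j → line i ≠ line j) (R1 : J → Prop) (hR1 : ∀ j, R1 j → line j = true) :
    ∃ F : (Y → kˣ) × (Y → kˣ) × (Y → kˣ) × {v : J → Y → k // CSol supp nz R R1 v} →
      {M : Matrix ((Y ⊕ Y) ⊕ Option J) ((Y ⊕ Y) ⊕ Option J) k // M.IsSymm ∧
        (∀ p ∈ {p : ((Y ⊕ Y) ⊕ Option J) × ((Y ⊕ Y) ⊕ Option J) | FZ supp R R1 p.1 p.2},
          M p.1 p.2 = 0) ∧
        (∀ p ∈ {p : ((Y ⊕ Y) ⊕ Option J) × ((Y ⊕ Y) ⊕ Option J) | FN nz p.1 p.2},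
          M p.1 p.2 ≠ 0) ∧ M.rank = Fintype.card Y}, Function.Bijective F := by
  classical
  refine ⟨fun p => ⟨fM line (fun y => p.1 y) (fun y => p.2.1 y) (fun y => p.2.2.1 y) p.2.2.2.1,
    fM_symm _ _ _ _ _, ?_, ?_, ?_⟩, ?_, ?_⟩
  · -- zeros
    obtain ⟨κ, μ, ν, v, hv⟩ := p
    have hκ : ∀ y, ((κ y : kˣ) : k) ≠ 0 := fun y => (κ y).ne_zero
    have hν : ∀ y, ((ν y : kˣ) : k) ≠ 0 := fun y => (ν y).ne_zero
    rintro ⟨a, b⟩ hab
    replace hab : FZ supp R R1 a b := hab
    show fM line _ _ _ v a b = 0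
    match a, b, hab with
    | Sum.inl (Sum.inl y), Sum.inl (Sum.inl y'), h =>
      rw [fM_frame _ _ _ _ _ hκ]
      have h : y ≠ y' := h
      simp [fB, h]
    | Sum.inl (Sum.inl y), Sum.inl (Sum.inr y'), h =>
      rw [fM_frame _ _ _ _ _ hκ]
      have h : y ≠ y' := h
      simp [fB, h]
    | Sum.inl (Sum.inl y), Sum.inr (some j), h =>
      rw [fM_frame _ _ _ _ _ hκ]
      have h := hv.1 j y h
      simp [fB, h]
    | Sum.inr (some i), Sum.inr (some j), h =>
      rw [fM_inc _ _ _ _ _ hκ hν (hR i j h)]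
      exact hv.2.2.1 i j h
    | Sum.inr (some i), Sum.inr none, h =>
      rw [fM_inc1 _ _ _ _ _ hκ hν (hR1 i h)]
      exact hv.2.2.2 i h
  · -- nonzeros
    obtain ⟨κ, μ, ν, v, hv⟩ := p
    have hκ : ∀ y, ((κ y : kˣ) : k) ≠ 0 := fun y => (κ y).ne_zero
    have hμ : ∀ y, ((μ y : kˣ) : k) ≠ 0 := fun y => (μ y).ne_zero
    have hν : ∀ y, ((ν y : kˣ) : k) ≠ 0 := fun y => (ν y).ne_zero
    rintro ⟨a, b⟩ hab
    replace hab : FN nz a b := hab
    show fM line _ _ _ v a b ≠ 0
    match a, b, hab with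
    | Sum.inl (Sum.inl y), Sum.inl (Sum.inr y'), h =>
      rw [fM_frame _ _ _ _ _ hκ]
      have h : y = y' := h
      simp only [fB, h, if_true]
      exact hμ _
    | Sum.inl (Sum.inl y), Sum.inr none, h =>
      rw [fM_frame _ _ _ _ _ hκ]
      exact hν y
    | Sum.inl (Sum.inl y), Sum.inr (some j), h =>
      rw [fM_frame _ _ _ _ _ hκ]
      have h := hv.2.1 j y h
      simp only [fB]
      split_ifs
      · exact div_ne_zero (mul_ne_zero h (hκ y)) (hν y)
      · exact mul_ne_zero h (hν y)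
  · -- rank
    obtain ⟨κ, μ, ν, v, hv⟩ := p
    have hκ : ∀ y, ((κ y : kˣ) : k) ≠ 0 := fun y => (κ y).ne_zero
    have hμ : ∀ y, ((μ y : kˣ) : k) ≠ 0 := fun y => (μ y).ne_zero
    show (fM line _ _ _ v).rank = _
    rw [frame_rank (fM line _ _ _ v) (fM_symm _ _ _ _ _) (fun y => Sum.inl (Sum.inl y))
      (fun y => Sum.inl (Sum.inr y))]
    · refine ⟨fun y => ?_, fun i j => ?_⟩
      · rw [fM_frame _ _ _ _ _ hκ]
        simp only [fB, if_true]
        exact hκ y
      · rw [fM]
        refine Finset.sum_congr rfl fun y _ => ?_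
        rw [fM_frame _ _ _ _ _ hκ, fM_frame _ _ _ _ _ hκ, fM_frame _ _ _ _ _ hκ]
        simp only [fB, if_true]
    · intro y y' h
      rw [fM_frame _ _ _ _ _ hκ]
      simp [fB, h]
    · intro y y' h
      rw [fM_frame _ _ _ _ _ hκ]
      simp [fB, h]
    · intro y
      rw [fM_frame _ _ _ _ _ hκ]
      simp only [fB, if_true]
      exact hμ y
  · -- injective
    rintro ⟨κ, μ, ν, v, hv⟩ ⟨κ', μ', ν', v', hv'⟩ h
    have hκ : ∀ y, ((κ y : kˣ) : k) ≠ 0 := fun y => (κ y).ne_zero
    have hκ' : ∀ y, ((κ' y : kˣ) : k) ≠ 0 := fun y => (κ' y).ne_zero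
    have hν : ∀ y, ((ν y : kˣ) : k) ≠ 0 := fun y => (ν y).ne_zero
    have h0 := congrArg Subtype.val h
    replace h0 : fM line (fun y => (κ y : k)) (fun y => (μ y : k)) (fun y => (ν y : k)) v =
      fM line (fun y => (κ' y : k)) (fun y => (μ' y : k)) (fun y => (ν' y : k)) v' := h0
    have hB : ∀ y x, fB line (fun y => (κ y : k)) (fun y => (μ y : k)) (fun y => (ν y : k)) v y x =
        fB line (fun y => (κ' y : k)) (fun y => (μ' y : k)) (fun y => (ν' y : k)) v' y x := by
      intro y x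
      rw [← fM_frame line _ _ _ v hκ, ← fM_frame line _ _ _ v' hκ', h0]
    have e1 : κ = κ' := by
      funext y
      have h := hB y (Sum.inl (Sum.inl y))
      simp only [fB, if_true] at h
      exact Units.ext h
    have e2 : μ = μ' := by
      funext y
      have h := hB y (Sum.inl (Sum.inr y))
      simp only [fB, if_true] at h
      exact Units.ext h
    have e3 : ν = ν' := by
      funext y
      have h := hB y (Sum.inr none)
      simp only [fB] at h
      exact Units.ext h
    subst e1 e2 e3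
    have e4 : v = v' := by
      funext j y
      have h := hB y (Sum.inr (some j))
      simp only [fB] at h
      split_ifs at h
      · have h1 := hκ y
        have h2 := hν y
        rw [div_left_inj' h2] at h
        exact mul_right_cancel₀ h1 h
      · exact mul_right_cancel₀ (hν y) h
    subst e4
    rfl
  · -- surjective
    rintro ⟨M, hs, hZ, hN, hr⟩
    have z1 : ∀ y y', y ≠ y' → M (Sum.inl (Sum.inl y)) (Sum.inl (Sum.inl y')) = 0 :=
      fun y y' h => hZ (Sum.inl (Sum.inl y), Sum.inl (Sum.inl y')) h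
    have z2 : ∀ y y', y ≠ y' → M (Sum.inl (Sum.inl y)) (Sum.inl (Sum.inr y')) = 0 :=
      fun y y' h => hZ (Sum.inl (Sum.inl y), Sum.inl (Sum.inr y')) h
    have z3 : ∀ y j, y ∉ supp j → M (Sum.inl (Sum.inl y)) (Sum.inr (some j)) = 0 :=
      fun y j h => hZ (Sum.inl (Sum.inl y), Sum.inr (some j)) h
    have z4 : ∀ i j, R i j → M (Sum.inr (some i)) (Sum.inr (some j)) = 0 :=
      fun i j h => hZ (Sum.inr (some i), Sum.inr (some j)) h
    have z5 : ∀ i, R1 i → M (Sum.inr (some i)) (Sum.inr none) = 0 :=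
      fun i h => hZ (Sum.inr (some i), Sum.inr none) h
    have n1 : ∀ y, M (Sum.inl (Sum.inl y)) (Sum.inl (Sum.inr y)) ≠ 0 :=
      fun y => hN (Sum.inl (Sum.inl y), Sum.inl (Sum.inr y)) rfl
    have n2 : ∀ y, M (Sum.inl (Sum.inl y)) (Sum.inr none) ≠ 0 :=
      fun y => hN (Sum.inl (Sum.inl y), Sum.inr none) trivial
    have n3 : ∀ y j, y ∈ nz j → M (Sum.inl (Sum.inl y)) (Sum.inr (some j)) ≠ 0 :=
      fun y j h => hN (Sum.inl (Sum.inl y), Sum.inr (some j)) h
    obtain ⟨hκ, hM⟩ := (frame_rank M hs (fun y => Sum.inl (Sum.inl y))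
      (fun y => Sum.inl (Sum.inr y)) z1 z2 n1).1 hr
    set κ : Y → kˣ := fun y => Units.mk0 _ (hκ y) with eκ
    set μ : Y → kˣ := fun y => Units.mk0 _ (n1 y) with eμ
    set ν : Y → kˣ := fun y => Units.mk0 _ (n2 y) with eν
    set v : J → Y → k := fun j y => if line j then
      M (Sum.inl (Sum.inl y)) (Sum.inr (some j)) * ν y / κ y else
      M (Sum.inl (Sum.inl y)) (Sum.inr (some j)) / ν y with ev
    have kκ : ∀ y, (κ y : k) ≠ 0 := fun y => (κ y).ne_zero
    have kν : ∀ y, (ν y : k) ≠ 0 := fun y => (ν y).ne_zero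
    have hB : ∀ y x, fB line (fun y => (κ y : k)) (fun y => (μ y : k)) (fun y => (ν y : k)) v y x =
        M (Sum.inl (Sum.inl y)) x := by
      intro y x
      match x with
      | Sum.inl (Sum.inl y') =>
        by_cases h : y = y'
        · subst h
          simp only [fB, if_true]
          rfl
        · simp only [fB, if_neg h]
          exact (z1 y y' h).symm
      | Sum.inl (Sum.inr y') =>
        by_cases h : y = y'
        · subst h
          simp only [fB, if_true]
          rfl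
        · simp only [fB, if_neg h]
          exact (z2 y y' h).symm
      | Sum.inr none => rfl
      | Sum.inr (some j) =>
        have h1 := kκ y
        have h2 := kν y
        simp only [fB, ev]
        split_ifs
        · field_simp
        · field_simp
    have hfM : fM line (fun y => (κ y : k)) (fun y => (μ y : k)) (fun y => (ν y : k)) v = M := by
      funext i j
      rw [hM i j, fM]
      refine Finset.sum_congr rfl fun y _ => ?_
      rw [hB, hB]
      rfl
    have hv : CSol supp nz R R1 v := by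
      refine ⟨fun j y h => ?_, fun j y h => ?_, fun i j h => ?_, fun j h => ?_⟩
      · simp only [ev, z3 y j h, zero_mul, zero_div, ite_self]
      · simp only [ev]
        split_ifs
        · exact div_ne_zero (mul_ne_zero (n3 y j h) (kν y)) (kκ y)
        · exact div_ne_zero (n3 y j h) (kν y)
      · rw [← fM_inc line (fun y => (κ y : k)) (fun y => (μ y : k)) (fun y => (ν y : k)) v kκ kν
          (hR i j h), hfM]
        exact z4 i j h
      · rw [← fM_inc1 line (fun y => (κ y : k)) (fun y => (μ y : k)) (fun y => (ν y : k)) v kκ kν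
          (hR1 j h), hfM]
        exact z5 j h
    exact ⟨⟨κ, μ, ν, v, hv⟩, Subtype.ext hfM⟩

theorem frame_count (line : J → Bool) (supp nz : J → Set Y) (R : J → J → Prop)
    (hR : ∀ i j, R i j → line i ≠ line j) (R1 : J → Prop) (hR1 : ∀ j, R1 j → line j = true) :
    scount k ((Y ⊕ Y) ⊕ Option J) {p | FZ supp R R1 p.1 p.2} {p | FN nz p.1 p.2} (Fintype.card Y) =
      Nat.card kˣ ^ (3 * Fintype.card Y) * Nat.card {v : J → Y → k // CSol supp nz R R1 v} := by
  obtain ⟨F, hF⟩ := frame_bij (k := k) line supp nz R hR R1 hR1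
  unfold scount
  rw [← Nat.card_eq_of_bijective F hF, Nat.card_prod, Nat.card_prod, Nat.card_prod, Nat.card_fun,
    Nat.card_eq_fintype_card (α := Y)]
  ring

end

end Pool.Agent.Helper50.KR
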