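import Mathlib

/-!
# Symmetric matrices of minimal rank over a frame
-/

set_option autoImplicit false

open Matrix Module

namespace Pool.Agent.Helper50.KR

variable {k : Type} [Field k] {X Y : Type} [Fintype X] [Fintype Y]

/-- the rank is the number of elements of an independent family of rows iff these rows generate
all rows -/
lemma rank_rows (M : Matrix X X k) (e : Y → X) (li : LinearIndependent k (fun y => M (e y))) :
    M.rank = Fintype.card Y ↔ ∃ A : X → Y → k, ∀ i, M i = ∑ y, A i y • M (e y) := by
  have hle : Submodule.span k (Set.range fun y => M (e y)) ≤ Submodule.span k (Set.range M.row) := by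
    refine Submodule.span_mono ?_
    rintro _ ⟨y, rfl⟩
    exact ⟨e y, rfl⟩
  have h1 : finrank k (Submodule.span k (Set.range fun y => M (e y))) = Fintype.card Y :=
    finrank_span_eq_card li
  rw [M.rank_eq_finrank_span_row]
  constructor
  · intro h
    have h2 := Submodule.eq_of_le_of_finrank_eq hle (h1.trans h.symm)
    have h3 : ∀ i, ∃ A : Y → k, ∑ y, A y • M (e y) = M i := by
      intro i
      refine (Submodule.mem_span_range_iff_exists_fun k).1 ?_
      rw [h2]
      exact Submodule.subset_span ⟨i, rfl⟩
    choose A hA using h3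
    exact ⟨A, fun i => (hA i).symm⟩
  · rintro ⟨A, hA⟩
    have h2 : Submodule.span k (Set.range M.row) ≤
        Submodule.span k (Set.range fun y => M (e y)) := by
      rw [Submodule.span_le]
      rintro _ ⟨i, rfl⟩
      refine (Submodule.mem_span_range_iff_exists_fun k).2 ⟨A i, (hA i).symm⟩
    rw [le_antisymm h2 hle, h1]

/-- **Frame lemma**: structure of the symmetric matrices whose rank is the size of a frame -/
theorem frame_rank (M : Matrix X X k) (hs : M.IsSymm) (e f : Y → X)
    (h1 : ∀ y y', y ≠ y' → M (e y) (e y') = 0) (h2 : ∀ y y', y ≠ y' → M (e y) (f y') = 0)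
    (h3 : ∀ y, M (e y) (f y) ≠ 0) :
    M.rank = Fintype.card Y ↔ (∀ y, M (e y) (e y) ≠ 0) ∧
      ∀ i j, M i j = ∑ y, M (e y) i * M (e y) j / M (e y) (e y) := by
  classical
  have li : LinearIndependent k (fun y => M (e y)) := by
    rw [Fintype.linearIndependent_iff]
    intro c hc y
    have h := congrFun hc (f y)
    rw [Finset.sum_apply, Finset.sum_eq_single y] at h
    · rw [Pi.smul_apply, smul_eq_mul, Pi.zero_apply] at h
      exact (mul_eq_zero.1 h).resolve_right (h3 y)
    · intro y' _ hy'
      rw [Pi.smul_apply, h2 y' y hy', smul_zero]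
    · intro h
      exact absurd (Finset.mem_univ y) h
  rw [rank_rows M e li]
  constructor
  · rintro ⟨A, hA⟩
    have h4 : ∀ i y, M i (e y) = A i y * M (e y) (e y) := by
      intro i y
      have h := congrFun (hA i) (e y)
      rw [Finset.sum_apply, Finset.sum_eq_single y] at h
      · exact h
      · intro y' _ hy'
        rw [Pi.smul_apply, h1 y' y hy', smul_zero]
      · intro h
        exact absurd (Finset.mem_univ y) h
    have h5 : ∀ y, M (e y) (e y) ≠ 0 := by
      intro y hy
      refine h3 y ?_
      rw [← hs.apply, h4, hy, mul_zero]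
    refine ⟨h5, fun i j => ?_⟩
    have h := congrFun (hA i) j
    rw [h, Finset.sum_apply]
    refine Finset.sum_congr rfl fun y _ => ?_
    rw [Pi.smul_apply, smul_eq_mul, hs.apply i (e y), h4 i y]
    field_simp [h5 y]
  · rintro ⟨h5, h6⟩
    refine ⟨fun i y => M (e y) i / M (e y) (e y), fun i => ?_⟩
    funext j
    rw [h6 i j, Finset.sum_apply]
    refine Finset.sum_congr rfl fun y _ => ?_
    rw [Pi.smul_apply, smul_eq_mul]
    ring

end Pool.Agent.Helper50.KR
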