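import Pool.Agent.Helper29.Zeta.Rep
import Pool.Agent.Helper50.KR.Defs

/-!
# Functions on prime powers with polynomial growth and meromorphic zeta function
-/

set_option autoImplicit false

open Pool.Agent.Helper29.Zeta

namespace Pool.Agent.Helper50.KR

/-- polynomial growth and meromorphic zeta function -/
def MG (c : ℕ → ℤ) : Prop := Growth (fun n => (c n : ℂ)) ∧ Mero (fun n => (c n : ℂ))

lemma MG.congr {c c' : ℕ → ℤ} (h : MG c) (h' : ∀ n, IsPrimePow n → c n = c' n) : MG c' :=
  ⟨h.1.congr fun n hn => by rw [h' n hn], h.2.congr fun n hn => by rw [h' n hn]⟩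

lemma MG.add {c c' : ℕ → ℤ} (h : MG c) (h' : MG c') : MG (fun n => c n + c' n) := by
  refine ⟨(h.1.add h'.1).congr fun n _ => ?_, (Mero.add h.1 h'.1 h.2 h'.2).congr fun n _ => ?_⟩ <;>
  push_cast <;> rfl

lemma MG.neg {c : ℕ → ℤ} (h : MG c) : MG (fun n => - c n) := by
  refine ⟨h.1.neg.congr fun n _ => ?_, h.2.neg.congr fun n _ => ?_⟩ <;> push_cast <;> rfl

lemma MG.sub {c c' : ℕ → ℤ} (h : MG c) (h' : MG c') : MG (fun n => c n - c' n) := by
  refine (h.add h'.neg).congr fun n _ => ?_
  ring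

lemma growth_eval (P : Polynomial ℤ) : Growth (fun n => ((P.eval (n : ℤ) : ℤ) : ℂ)) := by
  have h : ∀ i, Growth (fun n => (P.coeff i : ℂ) * (n : ℂ) ^ i) := fun i =>
    (Growth.const _).mul (growth_pow i)
  refine (Growth.sum (P.natDegree + 1) h).congr fun n _ => ?_
  rw [Polynomial.eval_eq_sum_range]
  push_cast
  rfl

lemma MG.mul_poly {c : ℕ → ℤ} (h : MG c) (P : Polynomial ℤ) :
    MG (fun n => P.eval (n : ℤ) * c n) := by
  refine ⟨((growth_eval P).mul h.1).congr fun n _ => ?_, (h.2.mul_poly h.1 P).congr fun n _ => ?_⟩ <;>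
  push_cast <;> rfl

/-- division by a monic polynomial -/
lemma MG.of_monic {c : ℕ → ℤ} (hg : Growth (fun n => (c n : ℂ))) {P : Polynomial ℤ} (hP : P.Monic)
    (h : MG (fun n => P.eval (n : ℤ) * c n)) : MG c := by
  refine ⟨hg, Mero.of_monic hg hP (h.2.congr fun n _ => ?_)⟩
  push_cast
  rfl

lemma MG.zero : MG (fun _ => 0) := by
  refine ⟨(Growth.const 0).congr fun n _ => ?_, mero_zero.congr fun n _ => ?_⟩ <;> simp

/-- a bound for cardinalities gives growth -/
lemma growth_nat {c : ℕ → ℕ} (a : ℕ) (h : ∀ n, IsPrimePow n → c n ≤ n ^ a) :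
    Growth (fun n => ((c n : ℤ) : ℂ)) := by
  refine (growth_of_le (c := fun n => (c n : ℝ)) a (fun n => Nat.cast_nonneg _)
    (fun n hn => by exact_mod_cast h n hn)).congr fun n _ => ?_
  push_cast
  rfl

/-- growth of the number of elements of a subset of a space of matrices or of families of vectors -/
lemma growth_card (I : Type) [Finite I] (S : ∀ n : ℕ, (I → FF n) → Prop) :
    Growth (fun n => ((Nat.card {x : I → FF n // S n x} : ℤ) : ℂ)) := by
  have : Fintype I := Fintype.ofFinite I
  refine growth_nat (Fintype.card I) fun n hn => ?_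
  refine (Nat.card_le_card_of_injective (Subtype.val : {x : I → FF n // S n x} → _)
    Subtype.val_injective).trans (le_of_eq ?_)
  rw [Nat.card_fun, card_FF hn, Nat.card_eq_fintype_card]

end Pool.Agent.Helper50.KR
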