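import Pool.Agent.Helper50.KR.Gadget

/-!
# Universality: polynomial systems by additions and multiplications
-/

set_option autoImplicit false

namespace Pool.Agent.Helper50.KR

/-- change of coordinates in a constraint -/
def Con.map {Y Y' : Type} (f : Y → Y') : Con Y → Con Y'
  | .add a b c => .add (f a) (f b) (f c)
  | .mul a b c => .mul (f a) (f b) (f c)

lemma Con.map_ok {Y Y' : Type} {f : Y → Y'} (hf : Function.Injective f) {o : Y} {c : Con Y}
    (h : c.Ok o) : (c.map f).Ok (f o) := by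
  cases c with
  | add a b c => exact ⟨hf.ne h.1, hf.ne h.2.1, hf.ne h.2.2⟩
  | mul a b c =>
    exact ⟨hf.ne h.1, hf.ne h.2.1, hf.ne h.2.2.1, hf.ne h.2.2.2.1, hf.ne h.2.2.2.2.1,
      hf.ne h.2.2.2.2.2⟩

lemma Con.map_holds {Y Y' k : Type} [Field k] (f : Y → Y') (o : Y) (c : Con Y) (t : Y' → k) :
    (c.map f).Holds (f o) t ↔ c.Holds o (fun y => t (f y)) := by
  cases c <;> rfl

/-- a system of additions and multiplications in the variables `σ` and new variables `Y` -/
structure Sys (σ : Type) where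
  Y : Type
  fY : Fintype Y
  K : Type
  fK : Fintype K
  S : Set Y
  cs : K → Con (Option (σ ⊕ Y))
  ok : ∀ c, (cs c).Ok none

/-- the values of all coordinates -/
def ev {σ Y k : Type} [Field k] (x : σ → k) (y : Y → k) : Option (σ ⊕ Y) → k
  | none => 1
  | some (Sum.inl i) => x i
  | some (Sum.inr j) => y j

/-- solutions -/
def Sys.Sol {σ : Type} (D : Sys σ) {k : Type} [Field k] (x : σ → k) (y : D.Y → k) : Prop :=
  (∀ j ∈ D.S, y j = 0) ∧ ∀ c, (D.cs c).Holds none (ev x y)

/-- renaming of the new variables -/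
def ren {σ Y Y' : Type} (f : Y → Y') : Option (σ ⊕ Y) → Option (σ ⊕ Y') :=
  Option.map (Sum.map id f)

lemma ren_inj {σ Y Y' : Type} {f : Y → Y'} (hf : Function.Injective f) :
    Function.Injective (ren (σ := σ) f) :=
  Option.map_injective (Function.injective_id.sumMap hf)

lemma ev_ren {σ Y Y' k : Type} [Field k] (f : Y → Y') (x : σ → k) (y : Y' → k) :
    (fun a => ev x y (ren f a)) = ev x (fun j => y (f j)) := by
  funext a
  match a with
  | none => rfl
  | some (Sum.inl i) => rfl
  | some (Sum.inr j) => rfl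

lemma map_ren_holds {σ Y Y' k : Type} [Field k] (f : Y → Y') (c : Con (Option (σ ⊕ Y)))
    (x : σ → k) (y : Y' → k) :
    (c.map (ren f)).Holds none (ev x y) ↔ c.Holds none (ev x fun j => y (f j)) := by
  rw [← ev_ren f x y]
  exact Con.map_holds (ren f) none c (ev x y)

/-- one more variable and one more constraint -/
abbrev Sys.ext {σ : Type} (D : Sys σ) (c : Con (Option (σ ⊕ Option D.Y))) (hc : c.Ok none) : Sys σ :=
  haveI := D.fY
  haveI := D.fK
  { Y := Option D.Y
    fY := inferInstance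
    K := Option D.K
    fK := inferInstance
    S := some '' D.S
    cs := fun i => i.elim c fun i => (D.cs i).map (ren some)
    ok := by
      rintro (_ | i)
      · exact hc
      · exact Con.map_ok (ren_inj (Option.some_injective _)) (D.ok i) }

lemma Sys.ext_sol {σ : Type} (D : Sys σ) (c : Con (Option (σ ⊕ Option D.Y))) (hc : c.Ok none)
    {k : Type} [Field k] (x : σ → k) (y : Option D.Y → k) :
    (D.ext c hc).Sol x y ↔ D.Sol x (fun j => y (some j)) ∧ c.Holds none (ev x y) := by
  constructor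
  · rintro ⟨h1, h2⟩
    exact ⟨⟨fun j hj => h1 (some j) ⟨j, hj, rfl⟩, fun i => (map_ren_holds some (D.cs i) x y).1
      (h2 (some i))⟩, h2 none⟩
  · rintro ⟨⟨h1, h2⟩, h3⟩
    refine ⟨?_, ?_⟩
    · rintro _ ⟨j, hj, rfl⟩
      exact h1 j hj
    · rintro (_ | i)
      · exact h3
      · exact (map_ren_holds some (D.cs i) x y).2 (h2 i)

/-- disjoint union of a finite family of systems -/
abbrev Sys.sigma {σ Φ : Type} [Fintype Φ] (D : Φ → Sys σ) : Sys σ :=
  haveI := fun f => (D f).fY
  haveI := fun f => (D f).fK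
  { Y := Σ f, (D f).Y
    fY := inferInstance
    K := Σ f, (D f).K
    fK := inferInstance
    S := {p | p.2 ∈ (D p.1).S}
    cs := fun p => ((D p.1).cs p.2).map (ren (Sigma.mk p.1))
    ok := fun p => Con.map_ok (o := none) (ren_inj sigma_mk_injective) ((D p.1).ok p.2) }

lemma Sys.sigma_sol {σ Φ : Type} [Fintype Φ] (D : Φ → Sys σ) {k : Type} [Field k] (x : σ → k)
    (y : (Σ f, (D f).Y) → k) :
    (Sys.sigma D).Sol x y ↔ ∀ f, (D f).Sol x (fun j => y ⟨f, j⟩) := by
  constructor
  · rintro ⟨h1, h2⟩ f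
    exact ⟨fun j hj => h1 ⟨f, j⟩ hj, fun i => (map_ren_holds (Sigma.mk f) ((D f).cs i) x y).1
      (h2 ⟨f, i⟩)⟩
  · intro h
    exact ⟨fun p hp => (h p.1).1 p.2 hp, fun p =>
      (map_ren_holds (Sigma.mk p.1) ((D p.1).cs p.2) x y).2 ((h p.1).2 p.2)⟩

/-- `f` is computed by the system `D`: the system has exactly one solution for all `x`, and its
coordinate `w` is `f x` -/
def Sys.Computes {σ : Type} (D : Sys σ) (w : D.Y) (f : MvPolynomial σ ℤ) : Prop :=
  ∀ (k : Type) [Field k] (x : σ → k), ∃ y0 : D.Y → k, y0 w = MvPolynomial.aeval x f ∧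
    ∀ y, D.Sol x y ↔ y = y0

/-- `f` is computable -/
def Comp {σ : Type} (f : MvPolynomial σ ℤ) : Prop := ∃ (D : Sys σ) (w : D.Y), D.Computes w f

lemma Comp.zero {σ : Type} : Comp (0 : MvPolynomial σ ℤ) := by
  refine ⟨⟨Unit, inferInstance, Empty, inferInstance, Set.univ, Empty.elim, fun c => c.elim⟩, (),
    fun k _ x => ⟨fun _ => 0, (map_zero _).symm, fun y => ⟨fun h => ?_, fun h => ?_⟩⟩⟩
  · funext j
    exact h.1 j trivial
  · subst h
    exact ⟨fun _ _ => rfl, fun c => c.elim⟩

/-- the general extension step: the new variable is a function of the old ones -/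
lemma Sys.Computes.ext {σ : Type} {D : Sys σ} {w : D.Y} {f : MvPolynomial σ ℤ}
    (h : D.Computes w f) (c : Con (Option (σ ⊕ Option D.Y))) (hc : c.Ok none)
    (g : MvPolynomial σ ℤ)
    (hg : ∀ (k : Type) [Field k] (x : σ → k) (y : Option D.Y → k),
      D.Sol x (fun j => y (some j)) → y (some w) = MvPolynomial.aeval x f →
      (c.Holds none (ev x y) ↔ y none = MvPolynomial.aeval x g)) : Comp g := by
  refine ⟨D.ext c hc, none, fun k _ x => ?_⟩
  obtain ⟨y0, h1, h2⟩ := h k x
  refine ⟨fun j => j.elim (MvPolynomial.aeval x g) y0, rfl, fun y => ?_⟩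
  rw [Sys.ext_sol]
  constructor
  · rintro ⟨h3, h4⟩
    have h5 := (h2 _).1 h3
    have h6 : y (some w) = MvPolynomial.aeval x f := by rw [← h1, ← h5]
    funext j
    match j with
    | none => exact (hg k x y h3 h6).1 h4
    | some j => exact congrFun h5 j
  · intro h3
    subst h3
    have h4 : D.Sol x y0 := (h2 y0).2 rfl
    exact ⟨h4, (hg k x _ h4 h1).2 rfl⟩

lemma Comp.add_one {σ : Type} {f : MvPolynomial σ ℤ} (h : Comp f) : Comp (f + 1) := by
  obtain ⟨D, w, h⟩ := h
  refine h.ext (Con.add (some (Sum.inr (some w))) none (some (Sum.inr none)))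
    ⟨by simp, by simp, by simp⟩ _ fun k _ x y _ h1 => ?_
  show y (some w) + 1 = y none ↔ y none = _
  rw [h1, map_add, map_one]
  exact eq_comm

lemma Comp.sub_one {σ : Type} {f : MvPolynomial σ ℤ} (h : Comp f) : Comp (f - 1) := by
  obtain ⟨D, w, h⟩ := h
  refine h.ext (Con.add (some (Sum.inr none)) none (some (Sum.inr (some w))))
    ⟨by simp, by simp, by simp⟩ _ fun k _ x y _ h1 => ?_
  show y none + 1 = y (some w) ↔ y none = _
  rw [h1, map_sub, map_one]
  exact eq_sub_iff_add_eq.symm

lemma Comp.C {σ : Type} (a : ℤ) : Comp (MvPolynomial.C a : MvPolynomial σ ℤ) := by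
  induction a using Int.induction_on with
  | zero => simpa using Comp.zero
  | succ i ih => simpa using ih.add_one
  | pred i ih => simpa using ih.sub_one

lemma Comp.mul_X {σ : Type} {f : MvPolynomial σ ℤ} (h : Comp f) (i : σ) :
    Comp (f * MvPolynomial.X i) := by
  obtain ⟨D, w, h⟩ := h
  refine h.ext (Con.mul (some (Sum.inr (some w))) (some (Sum.inl i)) (some (Sum.inr none)))
    ⟨by simp, by simp, by simp, by simp, by simp, by simp⟩ _ fun k _ x y _ h1 => ?_
  show y (some w) * x i = y none * 1 ↔ y none = _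
  rw [h1, map_mul, MvPolynomial.aeval_X, mul_one]
  exact eq_comm

lemma Comp.add {σ : Type} {f g : MvPolynomial σ ℤ} (hf : Comp f) (hg : Comp g) :
    Comp (f + g) := by
  obtain ⟨D, w, hf⟩ := hf
  obtain ⟨D', w', hg⟩ := hg
  let E : Bool → Sys σ := fun b => b.rec D D'
  have h1 : (Sys.sigma E).Computes ⟨false, w⟩ f := by
    intro k _ x
    obtain ⟨y, h1, h2⟩ := hf k x
    obtain ⟨y', h3, h4⟩ := hg k x
    refine ⟨fun p => match p with
      | ⟨false, j⟩ => y j
      | ⟨true, j⟩ => y' j, h1, fun z => ?_⟩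
    rw [Sys.sigma_sol]
    constructor
    · intro h
      funext p
      match p with
      | ⟨false, j⟩ => exact congrFun ((h2 _).1 (h false)) j
      | ⟨true, j⟩ => exact congrFun ((h4 _).1 (h true)) j
    · intro h b
      subst h
      cases b
      · exact (h2 _).2 rfl
      · exact (h4 _).2 rfl
  refine h1.ext (Con.add (some (Sum.inr (some ⟨false, w⟩))) (some (Sum.inr (some ⟨true, w'⟩)))
    (some (Sum.inr none))) ⟨?_, by simp, by simp⟩ _ fun k _ x y h2 h3 => ?_
  · intro h
    have h := Option.some_injective _ (Sum.inr_injective (Option.some_injective _ h))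
    exact Bool.noConfusion (congrArg Sigma.fst h)
  · show y (some ⟨false, w⟩) + y (some ⟨true, w'⟩) = y none ↔ y none = _
    have h4 : y (some ⟨true, w'⟩) = MvPolynomial.aeval x g := by
      obtain ⟨y', h5, h6⟩ := hg k x
      rw [← h5]
      have h7 := (Sys.sigma_sol E x _).1 h2 true
      exact congrFun ((h6 _).1 h7) w'
    rw [h3, h4, map_add]
    exact eq_comm

/-- **all polynomials are computable** -/
theorem comp_all {σ : Type} (f : MvPolynomial σ ℤ) : Comp f := by
  induction f using MvPolynomial.induction_on with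
  | C a => exact Comp.C a
  | add p q hp hq => exact hp.add hq
  | mul_X p i hp => exact hp.mul_X i

/-- **universality** -/
theorem universal {σ Φ : Type} [Fintype Φ] (F : Φ → MvPolynomial σ ℤ) :
    ∃ (D : Sys σ), ∀ (k : Type) [Field k] (x : σ → k),
      ∃ y0 : D.Y → k, ∀ y, D.Sol x y ↔ y = y0 ∧ ∀ f, MvPolynomial.aeval x (F f) = 0 := by
  choose D w hD using fun f => comp_all (F f)
  let E := Sys.sigma D
  refine ⟨⟨E.Y, E.fY, E.K, E.fK, E.S ∪ {p | p.2 = w p.1}, E.cs, E.ok⟩, fun k _ x => ?_⟩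
  choose y0 h1 h2 using fun f => hD f k x
  refine ⟨fun p => y0 p.1 p.2, fun y => ?_⟩
  have h3 : E.Sol x y ↔ y = fun p : E.Y => y0 p.1 p.2 := by
    rw [Sys.sigma_sol]
    constructor
    · intro h
      funext p
      exact congrFun ((h2 p.1 _).1 (h p.1)) p.2
    · intro h f
      subst h
      exact (h2 f _).2 rfl
  constructor
  · rintro ⟨h4, h5⟩
    have h6 := h3.1 ⟨fun j hj => h4 j (Or.inl hj), h5⟩
    refine ⟨h6, fun f => ?_⟩
    rw [← h1 f]
    have h7 := h4 ⟨f, w f⟩ (Or.inr rfl)
    rw [h6] at h7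
    exact h7
  · rintro ⟨h4, h5⟩
    obtain ⟨h6, h7⟩ := h3.2 h4
    refine ⟨?_, h7⟩
    rintro j (hj | hj)
    · exact h6 j hj
    · have hj : j.2 = w j.1 := hj
      rw [h4]
      show y0 j.1 j.2 = 0
      rw [hj, h1, h5]

end Pool.Agent.Helper50.KR
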